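import Mathlib

set_option autoImplicit false

/-!
# The visual hull of a union of `n` disjoint compact convex sets in `ℝⁿ`
-/

namespace Pool.Agent.Results.MP_d086ed_co.VisualHull

open scoped RealInnerProductSpace

/-- The orthogonal projection of `ℝⁿ` onto the line spanned by the unit vector `u`. -/
noncomputable def proj {n : ℕ} (u x : EuclideanSpace ℝ (Fin n)) : EuclideanSpace ℝ (Fin n) :=
  ⟪u, x⟫ • u

/-- `A` and `B` have the same images under all orthogonal projections onto one-dimensional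
linear subspaces of `ℝⁿ`. -/
def PEquiv {n : ℕ} (A B : Set (EuclideanSpace ℝ (Fin n))) : Prop :=
  ∀ u : EuclideanSpace ℝ (Fin n), ‖u‖ = 1 → proj u '' A = proj u '' B

/-- The visual hull of `S`: the union of all sets that are `PEquiv`-equivalent to `S`. -/
def visualHull {n : ℕ} (S : Set (EuclideanSpace ℝ (Fin n))) : Set (EuclideanSpace ℝ (Fin n)) :=
  ⋃₀ {B | PEquiv B S}

lemma proj_eq_iff {n : ℕ} {u x y : EuclideanSpace ℝ (Fin n)} (hu : ‖u‖ = 1) :
    proj u x = proj u y ↔ ⟪u, x⟫ = ⟪u, y⟫ := by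
  unfold proj
  constructor
  · intro h
    have := congrArg (fun w => ⟪u, w⟫) h
    simpa [inner_smul_right, real_inner_self_eq_norm_sq, hu] using this
  · intro h
    rw [h]

/-- `proj u` is the orthogonal projection onto the span of `u` in the sense of Mathlib. -/
lemma proj_eq {n : ℕ} {u : EuclideanSpace ℝ (Fin n)} (hu : ‖u‖ = 1)
    (x : EuclideanSpace ℝ (Fin n)) :
    proj u x = (Submodule.span ℝ {u}).starProjection x := by
  rw [Submodule.starProjection_unit_singleton ℝ hu]
  rfl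

/-- The description of the visual hull by hyperplanes. -/
lemma mem_visualHull {n : ℕ} (S : Set (EuclideanSpace ℝ (Fin n)))
    (x : EuclideanSpace ℝ (Fin n)) :
    x ∈ visualHull S ↔ ∀ v : EuclideanSpace ℝ (Fin n), v ≠ 0 → ∃ s ∈ S, ⟪v, s⟫ = ⟪v, x⟫ := by
  constructor
  · rintro ⟨B, hB, hx⟩ v hv
    have hv0 : ‖v‖ ≠ 0 := norm_ne_zero_iff.2 hv
    have hu : ‖(‖v‖⁻¹ • v)‖ = 1 := by
      rw [norm_smul, norm_inv, norm_norm, inv_mul_cancel₀ hv0]
    have h2 : proj (‖v‖⁻¹ • v) x ∈ proj (‖v‖⁻¹ • v) '' S := by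
      rw [← hB _ hu]; exact ⟨x, hx, rfl⟩
    obtain ⟨s, hs, h3⟩ := h2
    refine ⟨s, hs, ?_⟩
    rw [proj_eq_iff hu, inner_smul_left, inner_smul_left] at h3
    exact mul_left_cancel₀ (by simpa using hv0) h3
  · intro h
    refine ⟨insert x S, ?_, Set.mem_insert _ _⟩
    intro u hu
    rw [Set.image_insert_eq]
    refine Set.insert_eq_of_mem ?_
    have hu0 : u ≠ 0 := by
      rintro rfl
      simp at hu
    obtain ⟨s, hs, h1⟩ := h u hu0
    exact ⟨s, hs, (proj_eq_iff hu).2 h1⟩

section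

variable {n : ℕ}

/-- first endpoint -/
noncomputable def P (i : Fin n) : EuclideanSpace ℝ (Fin n) := WithLp.toLp 2 fun k =>
  if i.val = 0 then 1
  else if i.val = 1 then (if k.val = 0 then -1 else if k.val = 1 then 10 else 1)
  else if i.val = 2 then (if k.val = 0 then -1 else if k.val = 1 then -1 else 1)
  else if k = i then -1 else 1

/-- second endpoint -/
noncomputable def Q (i : Fin n) : EuclideanSpace ℝ (Fin n) := WithLp.toLp 2 fun k =>
  if i.val = 0 then (if k.val = 0 then 10 else 1)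
  else if i.val = 1 then (if k.val = 0 then -10 else 1)
  else if i.val = 2 then (if k.val = 0 then -1 else if k.val = 1 then -10 else 1)
  else if k = i then -1 else 1

/-- the extra point -/
noncomputable def X (n : ℕ) : EuclideanSpace ℝ (Fin n) := WithLp.toLp 2 fun k =>
  if k.val = 0 then 3 else if k.val = 1 then -3 else 1

/-- negative coordinates -/
def T (i : Fin n) (k : Fin n) : Prop :=
  (i.val = 1 ∧ k.val = 0) ∨ (i.val = 2 ∧ (k.val = 0 ∨ k.val = 1)) ∨ (3 ≤ i.val ∧ k = i)

lemma sgnP (i k : Fin n) : (T i k → P i k < 0) ∧ (¬ T i k → 0 < P i k) := by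
  unfold T P
  constructor
  · rintro (⟨h1, h2⟩ | ⟨h1, h2 | h2⟩ | ⟨h1, h2⟩)
    · simp [h1, h2]
    · simp [h1, h2]
    · simp [h1, h2]
    · subst h2
      have a1 : k.val ≠ 0 := by omega
      have a2 : k.val ≠ 1 := by omega
      have a3 : k.val ≠ 2 := by omega
      simp [a1, a2, a3]
  · intro h
    simp only []
    split_ifs with h1 h2 h3 h4 h5 h6 h7 h8 <;> first | (norm_num; done) | (exfalso; apply h; omega)

lemma sgnQ (i k : Fin n) : (T i k → Q i k < 0) ∧ (¬ T i k → 0 < Q i k) := by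
  unfold T Q
  constructor
  · rintro (⟨h1, h2⟩ | ⟨h1, h2 | h2⟩ | ⟨h1, h2⟩)
    · simp [h1, h2]
    · simp [h1, h2]
    · simp [h1, h2]
    · subst h2
      have a1 : k.val ≠ 0 := by omega
      have a2 : k.val ≠ 1 := by omega
      have a3 : k.val ≠ 2 := by omega
      simp [a1, a2, a3]
  · intro h
    simp only []
    split_ifs with h1 h2 h3 h4 h5 h6 h7 h8 <;> first | (norm_num; done) | (exfalso; apply h; omega)

/-- the pieces -/
noncomputable def A (i : Fin n) : Set (EuclideanSpace ℝ (Fin n)) := segment ℝ (P i) (Q i)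

lemma sgnA (i k : Fin n) {z : EuclideanSpace ℝ (Fin n)} (hz : z ∈ A i) :
    (T i k → z k < 0) ∧ (¬ T i k → 0 < z k) := by
  obtain ⟨a, b, ha, hb, hab, rfl⟩ := hz
  have h1 := sgnP i k
  have h2 := sgnQ i k
  have e : (a • P i + b • Q i) k = a * P i k + b * Q i k := by simp
  rw [e]
  constructor
  · intro h
    have h3 := h1.1 h
    have h4 := h2.1 h
    rcases ha.eq_or_lt with h5 | h5
    · have : b = 1 := by linarith
      rw [← h5, this]; linarith
    · nlinarith
  · intro h
    have h3 := h1.2 h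
    have h4 := h2.2 h
    rcases ha.eq_or_lt with h5 | h5
    · have : b = 1 := by linarith
      rw [← h5, this]; linarith
    · nlinarith

lemma T_inj {i j : Fin n} (h : ∀ k, T i k ↔ T j k) (hn : 3 ≤ n) : i = j := by
  unfold T at h
  have h0 := h ⟨0, by omega⟩
  have h1 := h ⟨1, by omega⟩
  have hi := h i
  have hj := h j
  simp only [Fin.ext_iff, and_true, true_or, or_true] at h0 h1 hi hj ⊢
  omega

lemma T_ne (i : Fin n) (hn : 3 ≤ n) : ¬ ∀ k, T i k ↔ k.val = 1 := by
  intro h
  unfold T at h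
  have h0 := h ⟨0, by omega⟩
  have h1 := h ⟨1, by omega⟩
  have hi := h i
  simp only [Fin.ext_iff, and_true, true_or, or_true, iff_true] at h0 h1 hi
  omega

/-- the coordinate hyperplanes avoid the hull -/
lemma coord_ne (k : Fin n) {x : EuclideanSpace ℝ (Fin n)} (hx : x ∈ visualHull (⋃ i, A i)) :
    x k ≠ 0 := by
  intro h0
  rw [mem_visualHull] at hx
  obtain ⟨s, hs, h1⟩ := hx (EuclideanSpace.single k 1) (by
    intro h
    have := congrArg (fun w : EuclideanSpace ℝ (Fin n) => w k) h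
    simp at this)
  rw [Set.mem_iUnion] at hs
  obtain ⟨i, hi⟩ := hs
  rw [EuclideanSpace.inner_single_left, EuclideanSpace.inner_single_left, h0] at h1
  simp only [map_one, one_mul, mul_zero] at h1
  have h2 := sgnA i k hi
  by_cases h : T i k
  · have := h2.1 h
    linarith
  · have := h2.2 h
    linarith

lemma exists_segment {E : Type*} [NormedAddCommGroup E] [InnerProductSpace ℝ E] (v p q : E)
    (c : ℝ) (h : (⟪v, p⟫ - c) * (⟪v, q⟫ - c) ≤ 0) : ∃ s ∈ segment ℝ p q, ⟪v, s⟫ = c := by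
  have hpre : IsPreconnected (segment ℝ p q) := (convex_segment p q).isPreconnected
  have hcont : ContinuousOn (fun s : E => ⟪v, s⟫) (segment ℝ p q) := by fun_prop
  rcases mul_nonpos_iff.1 h with ⟨h1, h2⟩ | ⟨h1, h2⟩
  · obtain ⟨s, hs, h3⟩ := hpre.intermediate_value (right_mem_segment ℝ p q)
      (left_mem_segment ℝ p q) hcont (show c ∈ Set.Icc _ _ from ⟨by linarith, by linarith⟩)
    exact ⟨s, hs, h3⟩
  · obtain ⟨s, hs, h3⟩ := hpre.intermediate_value (left_mem_segment ℝ p q)
      (right_mem_segment ℝ p q) hcont (show c ∈ Set.Icc _ _ from ⟨by linarith, by linarith⟩)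
    exact ⟨s, hs, h3⟩

lemma inner_two (hn : 3 ≤ n) (v y z : EuclideanSpace ℝ (Fin n))
    (h : ∀ k : Fin n, 2 ≤ k.val → y k = z k) :
    ⟪v, y⟫ - ⟪v, z⟫ = v ⟨0, by omega⟩ * (y ⟨0, by omega⟩ - z ⟨0, by omega⟩) +
      v ⟨1, by omega⟩ * (y ⟨1, by omega⟩ - z ⟨1, by omega⟩) := by
  rw [← inner_sub_right, PiLp.inner_apply]
  rw [Finset.sum_eq_add (⟨0, by omega⟩ : Fin n) (⟨1, by omega⟩ : Fin n)]
  · simp [mul_comm]
  · simp
  · intro k _ hk
    have : 2 ≤ k.val := by
      simp only [ne_eq, Fin.ext_iff] at hk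
      omega
    simp [h k this]
  · simp
  · simp

lemma X_mem (hn : 3 ≤ n) : X n ∈ visualHull (⋃ i : Fin n, A i) := by
  rw [mem_visualHull]
  intro v _
  set a := v ⟨0, by omega⟩ with ha
  set b := v ⟨1, by omega⟩ with hb
  have hP : ∀ i : Fin n, i.val < 3 → ⟪v, P i⟫ - ⟪v, X n⟫ =
      a * (P i ⟨0, by omega⟩ - 3) + b * (P i ⟨1, by omega⟩ + 3) := by
    intro i hi
    rw [inner_two hn v]
    · simp [X, ← ha, ← hb]
    · intro k hk
      have a1 : k.val ≠ 0 := by omega
      have a2 : k.val ≠ 1 := by omega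
      have : i.val = 0 ∨ i.val = 1 ∨ i.val = 2 := by omega
      rcases this with h | h | h <;> simp [P, X, a1, a2, h]
  have hQ : ∀ i : Fin n, i.val < 3 → ⟪v, Q i⟫ - ⟪v, X n⟫ =
      a * (Q i ⟨0, by omega⟩ - 3) + b * (Q i ⟨1, by omega⟩ + 3) := by
    intro i hi
    rw [inner_two hn v]
    · simp [X, ← ha, ← hb]
    · intro k hk
      have a1 : k.val ≠ 0 := by omega
      have a2 : k.val ≠ 1 := by omega
      have : i.val = 0 ∨ i.val = 1 ∨ i.val = 2 := by omega
      rcases this with h | h | h <;> simp [Q, X, a1, a2, h]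
  by_contra hcon
  push Not at hcon
  have key : ∀ i : Fin n, i.val < 3 → 0 < (a * (P i ⟨0, by omega⟩ - 3) +
      b * (P i ⟨1, by omega⟩ + 3)) * (a * (Q i ⟨0, by omega⟩ - 3) +
      b * (Q i ⟨1, by omega⟩ + 3)) := by
    intro i hi
    rw [← hP i hi, ← hQ i hi]
    by_contra h
    push Not at h
    obtain ⟨s, hs, h1⟩ := exists_segment v (P i) (Q i) ⟪v, X n⟫ h
    exact hcon s (Set.mem_iUnion.2 ⟨i, hs⟩) h1
  have k0 := key ⟨0, by omega⟩ (by simp)
  have k1 := key ⟨1, by omega⟩ (by simp)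
  have k2 := key ⟨2, by omega⟩ (by simp)
  simp [P, Q] at k0 k1 k2
  rcases mul_pos_iff.1 k0 with ⟨u1, u2⟩ | ⟨u1, u2⟩ <;>
  rcases mul_pos_iff.1 k1 with ⟨u3, u4⟩ | ⟨u3, u4⟩ <;>
  rcases mul_pos_iff.1 k2 with ⟨u5, u6⟩ | ⟨u5, u6⟩ <;> linarith

lemma P_mem (i : Fin n) : P i ∈ visualHull (⋃ i : Fin n, A i) := by
  rw [mem_visualHull]
  intro v _
  exact ⟨P i, Set.mem_iUnion.2 ⟨i, left_mem_segment ℝ _ _⟩, rfl⟩

/-- two points with coordinates of opposite signs do not see each other in the hull -/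
lemma not_convex {C : Set (EuclideanSpace ℝ (Fin n))} (hC : Convex ℝ C)
    (hsub : C ⊆ visualHull (⋃ i : Fin n, A i)) {x y : EuclideanSpace ℝ (Fin n)}
    (hx : x ∈ C) (hy : y ∈ C) (k : Fin n) (hxk : x k < 0) (hyk : 0 < y k) : False := by
  have h1 : (⟪EuclideanSpace.single k (1 : ℝ), x⟫ - 0) *
      (⟪EuclideanSpace.single k (1 : ℝ), y⟫ - 0) ≤ 0 := by
    rw [EuclideanSpace.inner_single_left, EuclideanSpace.inner_single_left]
    simp only [map_one, one_mul, sub_zero]
    nlinarith
  obtain ⟨s, hs, h2⟩ := exists_segment _ x y 0 h1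
  rw [EuclideanSpace.inner_single_left] at h2
  simp only [map_one, one_mul] at h2
  exact coord_ne k (hsub (hC.segment_subset hx hy hs)) h2

end

/-- For every `n ≥ 3` there are `n` nonempty, pairwise disjoint, compact convex sets in `ℝⁿ`
such that the visual hull of their union is not a union of `n` convex sets. -/
theorem result (n : ℕ) (hn : 3 ≤ n) :
    ∃ A : Fin n → Set (EuclideanSpace ℝ (Fin n)),
      (∀ i, (A i).Nonempty ∧ Convex ℝ (A i) ∧ IsCompact (A i)) ∧
      (∀ i j, i ≠ j → Disjoint (A i) (A j)) ∧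
      ¬ ∃ C : Fin n → Set (EuclideanSpace ℝ (Fin n)),
        (∀ i, Convex ℝ (C i)) ∧ visualHull (⋃ i, A i) = ⋃ i, C i := by
  refine ⟨A, fun i => ⟨⟨P i, left_mem_segment ℝ _ _⟩, convex_segment _ _, ?_⟩, ?_, ?_⟩
  · have : A i = convexHull ℝ {P i, Q i} := by rw [convexHull_pair]; rfl
    rw [this]
    exact (Set.toFinite _).isCompact_convexHull ℝ
  · intro i j hij
    rw [Set.disjoint_left]
    intro z hz hz'
    apply hij
    apply T_inj _ hn
    intro k
    have h1 := sgnA i k hz
    have h2 := sgnA j k hz'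
    constructor
    · intro h
      by_contra h'
      have := h1.1 h
      have := h2.2 h'
      linarith
    · intro h
      by_contra h'
      have := h1.2 h'
      have := h2.1 h
      linarith
  · rintro ⟨C, hC, hCu⟩
    have hsub : ∀ i, C i ⊆ visualHull (⋃ i, A i) := by
      intro i
      rw [hCu]
      exact Set.subset_iUnion C i
    let q : Option (Fin n) → EuclideanSpace ℝ (Fin n) := fun o => o.elim (X n) P
    have hq : ∀ o, ∃ i, q o ∈ C i := by
      intro o
      have : q o ∈ visualHull (⋃ i, A i) := by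
        rcases o with _ | i
        · exact X_mem hn
        · exact P_mem i
      rw [hCu] at this
      exact Set.mem_iUnion.1 this
    choose f hf using hq
    obtain ⟨o, o', hne, hoo⟩ := Fintype.exists_ne_map_eq_of_card_lt f (by simp)
    let τ : Option (Fin n) → Fin n → Prop := fun o k => o.elim (k.val = 1) (fun i => T i k)
    have hτ : ∀ o k, (τ o k → q o k < 0) ∧ (¬ τ o k → 0 < q o k) := by
      intro o k
      rcases o with _ | i
      · simp only [τ, q, Option.elim_none, X]
        constructor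
        · intro h
          simp [h]
        · intro h
          split_ifs <;> norm_num
      · exact sgnP i k
    have hτne : ¬ ∀ k, τ o k ↔ τ o' k := by
      intro h
      rcases o with _ | i <;> rcases o' with _ | j
      · exact hne rfl
      · exact T_ne j hn fun k => (h k).symm
      · exact T_ne i hn fun k => h k
      · exact hne (congrArg some (T_inj h hn))
    push Not at hτne
    obtain ⟨k, hk⟩ := hτne
    have h1 := hf o
    have h2 := hf o'
    rw [← hoo] at h2
    rcases hk with ⟨hk1, hk2⟩ | ⟨hk1, hk2⟩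
    · exact not_convex (hC _) (hsub _) h1 h2 k ((hτ o k).1 hk1) ((hτ o' k).2 hk2)
    · exact not_convex (hC _) (hsub _) h2 h1 k ((hτ o' k).1 hk2) ((hτ o k).2 hk1)

end Pool.Agent.Results.MP_d086ed_co.VisualHull
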